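import Pool.Agent.H261R3.LN.LStmts

/-! # Task LBRep of the project LM (MP_e25190_gt): paths in compact Lipschitz neighbourhood
retracts are homotopic to Lipschitz paths -/

set_option autoImplicit false

open scoped NNReal ENNReal unitInterval

namespace Pool.Agent.H700R3.LN

open Pool.Agent.H261R3.LN
open Pool.Agent.H261R3.LH (IsLNR)

/-- Lipschitz approximation with exact end points -/
theorem exists_approx {m : ℕ} (u : ℝ → EuclideanSpace ℝ (Fin m)) (hu : Continuous u) (ρ : ℝ)
    (hρ : 0 < ρ) : ∃ (v : ℝ → EuclideanSpace ℝ (Fin m)) (K : ℝ≥0), ContDiff ℝ 1 v ∧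
      LipschitzOnWith K v (Set.Icc 0 1) ∧ (∀ t ∈ Set.Icc (0 : ℝ) 1, ‖v t - u t‖ < ρ) ∧
      v 0 = u 0 ∧ v 1 = u 1 := by
  have hm : (0 : ℝ) < 2 * (m + 1) := by positivity
  have hε : 0 < ρ / (2 * (m + 1)) := div_pos hρ hm
  have hui : ∀ i, Continuous fun t => u t i := fun i =>
    (EuclideanSpace.proj (𝕜 := ℝ) i).continuous.comp hu
  have h1 : ∀ i : Fin m, ∃ p : Polynomial ℝ, ∀ x ∈ Set.Icc (0 : ℝ) 1,
      |p.eval x - u x i| < ρ / (2 * (m + 1)) := fun i =>
    exists_polynomial_near_of_continuousOn 0 1 (fun t => u t i) (hui i).continuousOn _ hε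
  choose p hp using h1
  let w : Fin m → ℝ → ℝ := fun i t => (p i).eval t + (1 - t) * (u 0 i - (p i).eval 0) +
    t * (u 1 i - (p i).eval 1)
  have hw : ∀ i, ContDiff ℝ 1 (w i) := by
    intro i
    have e1 : ContDiff ℝ 1 (fun t => (p i).eval t) := by
      have e2 := Polynomial.contDiff_aeval (𝕜 := ℝ) (p i) 1
      simpa only [Polynomial.coe_aeval_eq_eval] using e2
    exact (e1.add ((contDiff_const.sub contDiff_id).mul contDiff_const)).add
      (contDiff_id.mul contDiff_const)
  have hwu : ∀ i, ∀ t ∈ Set.Icc (0 : ℝ) 1, |w i t - u t i| ≤ 2 * (ρ / (2 * (m + 1))) := by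
    intro i t ht
    have a1 := hp i t ht
    have a2 := hp i 0 ⟨le_rfl, zero_le_one⟩
    have a3 := hp i 1 ⟨zero_le_one, le_rfl⟩
    have e1 : w i t - u t i = ((p i).eval t - u t i) - ((1 - t) * ((p i).eval 0 - u 0 i) +
      t * ((p i).eval 1 - u 1 i)) := by
      simp only [w]
      ring
    have e2 : |(1 - t) * ((p i).eval 0 - u 0 i) + t * ((p i).eval 1 - u 1 i)| ≤
        (1 - t) * (ρ / (2 * (m + 1))) + t * (ρ / (2 * (m + 1))) := by
      refine (abs_add_le _ _).trans (add_le_add ?_ ?_)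
      · rw [abs_mul, abs_of_nonneg (sub_nonneg.2 ht.2)]
        exact mul_le_mul_of_nonneg_left a2.le (sub_nonneg.2 ht.2)
      · rw [abs_mul, abs_of_nonneg ht.1]
        exact mul_le_mul_of_nonneg_left a3.le ht.1
    rw [e1]
    refine (abs_sub _ _).trans ?_
    have e3 : (1 - t) * (ρ / (2 * (m + 1))) + t * (ρ / (2 * (m + 1))) = ρ / (2 * (m + 1)) := by
      ring
    rw [e3] at e2
    linarith
  let v : ℝ → EuclideanSpace ℝ (Fin m) := fun t => WithLp.toLp 2 fun i => w i t
  have hv : ContDiff ℝ 1 v := by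
    rw [contDiff_euclidean]
    exact hw
  obtain ⟨K, hK⟩ := (hv.contDiffOn (s := Set.Icc (0 : ℝ) 1)).exists_lipschitzOnWith one_ne_zero
    (convex_Icc 0 1) isCompact_Icc
  refine ⟨v, K, hv, hK, ?_, ?_, ?_⟩
  · intro t ht
    have e1 : ‖v t - u t‖ ^ 2 ≤ m * (2 * (ρ / (2 * (m + 1)))) ^ 2 := by
      rw [EuclideanSpace.real_norm_sq_eq]
      calc ∑ i, (v t - u t) i ^ 2 ≤ ∑ _i : Fin m, (2 * (ρ / (2 * (m + 1)))) ^ 2 := by
            refine Finset.sum_le_sum fun i _ => ?_
            have e2 : (v t - u t) i = w i t - u t i := rfl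
            rw [e2, ← sq_abs]
            exact pow_le_pow_left₀ (abs_nonneg _) (hwu i t ht) 2
        _ = m * (2 * (ρ / (2 * (m + 1)))) ^ 2 := by
            rw [Finset.sum_const, Finset.card_univ, Fintype.card_fin, nsmul_eq_mul]
    have e3 : m * (2 * (ρ / (2 * ((m : ℝ) + 1)))) ^ 2 < ρ ^ 2 := by
      have e4 : 2 * (ρ / (2 * ((m : ℝ) + 1))) = ρ / (m + 1) := by field_simp
      rw [e4, div_pow, mul_div_assoc', div_lt_iff₀ (by positivity)]
      have e5 : (m : ℝ) < (m + 1) ^ 2 := by
        have : (0 : ℝ) ≤ m := Nat.cast_nonneg m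
        nlinarith
      have e6 : 0 < ρ ^ 2 := by positivity
      nlinarith
    exact lt_of_pow_lt_pow_left₀ 2 hρ.le (e1.trans_lt e3)
  · ext i
    change w i 0 = u 0 i
    simp only [w]
    ring
  · ext i
    change w i 1 = u 1 i
    simp only [w]
    ring

theorem taskLBRep : TaskLBRep := by
  rintro S _ _ ⟨m, ι, r, K, ρ, hρ, hι, hr, hri⟩ x y γ
  have hu : Continuous fun t : ℝ => ι (γ.extend t) := hι.continuous.comp γ.continuous_extend
  obtain ⟨v, L, hv, hL, hvu, hv0, hv1⟩ := exists_approx _ hu ρ hρ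
  have hue : ∀ t : I, ι (γ.extend t) = ι (γ t) := fun t => by rw [γ.extend_apply t.2]
  have hvu' : ∀ t : I, ‖v t - ι (γ t)‖ < ρ := fun t => by
    have := hvu t t.2
    rwa [hue] at this
  have hmem : ∀ t : I, ∀ s : I, ι (γ t) + (s : ℝ) • (v t - ι (γ t)) ∈
      Metric.thickening ρ (Set.range ι) := by
    intro t s
    rw [Metric.mem_thickening_iff]
    refine ⟨ι (γ t), ⟨γ t, rfl⟩, ?_⟩
    rw [dist_eq_norm, add_sub_cancel_left, norm_smul, Real.norm_eq_abs, abs_of_nonneg s.2.1]
    calc (s : ℝ) * ‖v t - ι (γ t)‖ ≤ 1 * ‖v t - ι (γ t)‖ :=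
          mul_le_mul_of_nonneg_right s.2.2 (norm_nonneg _)
      _ < ρ := by rw [one_mul]; exact hvu' t
  have hcont : Continuous fun p : I × I =>
      r (ι (γ p.2) + (p.1 : ℝ) • (v p.2 - ι (γ p.2))) := by
    have h1 : Continuous fun p : I × I => ι (γ p.2) + (p.1 : ℝ) • (v p.2 - ι (γ p.2)) := by
      have e1 : Continuous fun p : I × I => ι (γ p.2) :=
        hι.continuous.comp (γ.continuous.comp continuous_snd)
      have e2 : Continuous fun p : I × I => v p.2 :=
        hv.continuous.comp (continuous_subtype_val.comp continuous_snd)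
      exact e1.add ((continuous_subtype_val.comp continuous_fst).smul (e2.sub e1))
    exact hr.continuousOn.comp_continuous h1 fun p => hmem p.2 p.1
  have h0 : v 0 = ι x := by
    rw [hv0]
    simp
  have h1 : v 1 = ι y := by
    rw [hv1]
    simp
  have hv1mem : ∀ t : I, v t ∈ Metric.thickening ρ (Set.range ι) := fun t => by
    have := hmem t 1
    rwa [Set.Icc.coe_one, one_smul, add_sub_cancel] at this
  let γ' : Path x y :=
    { toFun := fun t => r (v t)
      continuous_toFun := by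
        have h2 := hcont.comp (Continuous.prodMk (continuous_const (y := (1 : I))) continuous_id)
        refine h2.congr fun t => ?_
        simp
      source' := by
        simp only [Set.Icc.coe_zero]
        rw [h0, hri]
      target' := by
        simp only [Set.Icc.coe_one]
        rw [h1, hri] }
  refine ⟨K * L, γ', ⟨?_⟩, ?_⟩
  · refine
      { toFun := fun p => r (ι (γ p.2) + (p.1 : ℝ) • (v p.2 - ι (γ p.2)))
        continuous_toFun := hcont
        map_zero_left := fun t => ?_
        map_one_left := fun t => ?_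
        prop' := fun s t ht => ?_ }
    · simp [hri]
    · simp only [Set.Icc.coe_one, one_smul, add_sub_cancel]
      rfl
    · rcases ht with ht | ht
      · subst ht
        change r (ι (γ 0) + (s : ℝ) • (v ((0 : I) : ℝ) - ι (γ 0))) = γ 0
        rw [Set.Icc.coe_zero, h0, γ.source, sub_self, smul_zero, add_zero, hri]
      · have ht' : t = 1 := ht
        subst ht'
        change r (ι (γ 1) + (s : ℝ) • (v ((1 : I) : ℝ) - ι (γ 1))) = γ 1
        rw [Set.Icc.coe_one, h1, γ.target, sub_self, smul_zero, add_zero, hri]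
  · intro s t
    change dist (r (v s)) (r (v t)) ≤ K * L * |(s : ℝ) - t|
    have e1 := hr.dist_le_mul _ (hv1mem s) _ (hv1mem t)
    have e2 := hL.dist_le_mul _ s.2 _ t.2
    calc dist (r (v s)) (r (v t)) ≤ K * dist (v s) (v t) := e1
      _ ≤ K * (L * dist (s : ℝ) t) := mul_le_mul_of_nonneg_left e2 K.2
      _ = K * L * |(s : ℝ) - t| := by rw [Real.dist_eq, mul_assoc]

end Pool.Agent.H700R3.LN
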